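import Mathlib
import Pool.Agent.J6H20.BNG.Main2

/-!
# Exact comparison of the classes `B(≠*, 2^f)` with `B(≠*, 2^g)`

Let `f`, `g` be computable, `f` eventually strictly increasing, `g` nondecreasing, and suppose that
`2 g(n) < g(d n)` for some `d` and almost all `n` (for instance `g n = 2 ^ n`). Then
`B(≠*, 2^f) ⊆ B(≠*, 2^g)` if and only if `f n ≤ g (c n)` for some `c` and almost all `n`.
In particular, for `f n ≥ 2 ^ n` the class `B(≠*, 2^f)` equals `B(≠*, 2^(2^n))` exactly if
`f n ≤ 2 ^ (c n)` for some `c`, and `B(≠*, 2^(2^n))` is a proper subclass of `B(≠*, 2^(n!))`.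

The forcing with bushy trees is the one of `Pool/Agent/Helper67/BN`, with parameters.
-/

set_option autoImplicit false
set_option linter.unusedSectionVars false

namespace Pool.Agent.Results.MP_69a5e7_lc.ExactComparison

open Pool.Agent.Helper67.BN
open Pool.Agent.J6H20.BNG
open Nat.Partrec (Code)
open Nat.Partrec.Code

/-! ### Definitions used in the statement -/

open Classical in
/-- The oracle `A`: its characteristic function. -/
noncomputable def orc (A : Set ℕ) : ℕ →. ℕ := fun n => Part.some (if n ∈ A then 1 else 0)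

/-- The class `B(≠*, h)`: the oracles `A` which compute a function `y` with `y n < h n` for all `n`
such that, for every computable function `x`, `x n ≠ y n` for all but finitely many `n`. -/
def BNeq (h : ℕ → ℕ) : Set (Set ℕ) :=
  {A | ∃ y : ℕ → ℕ, ComputableIn {orc A} y ∧ (∀ n, y n < h n) ∧
    ∀ x : ℕ → ℕ, Computable x → ∀ᶠ n in Filter.atTop, x n ≠ y n}

/-! ### Inclusions -/

/-- The easy inclusion: `y` is transformed into `m ↦ y (m / c)`. -/
theorem incl {f g : ℕ → ℕ} (hg : Computable g) {c : ℕ} (hc : 0 < c)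
    (h : ∀ᶠ m in Filter.atTop, f (m / c) ≤ g m) :
    BNeq (fun n => 2 ^ f n) ⊆ BNeq (fun n => 2 ^ g n) := by
  rintro A ⟨y, hy, hy1, hy2⟩
  refine ⟨fun m => y (m / c) % 2 ^ g m, ?_, ?_, ?_⟩
  · exact cmod (ci_comp (f := y) (g := fun m => m / c) hy (cdiv ComputableIn.id (cconst c)))
      (cpw 2 hg.computableIn)
  · intro n
    exact Nat.mod_lt _ (by positivity)
  · intro x hx
    have h1 : ∀ j ∈ Finset.range c, ∀ᶠ n in Filter.atTop, x (c * n + j) ≠ y n := by
      intro j _
      refine hy2 (fun n => x (c * n + j)) ?_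
      refine computable_of_ci (ci_comp (f := x) (g := fun n => c * n + j) hx.computableIn ?_)
      exact cadd (cmul (cconst c) ComputableIn.id) (cconst j)
    have h2 := (Finset.range c).eventually_all.2 h1
    obtain ⟨N, hN⟩ := Filter.eventually_atTop.1 h2
    filter_upwards [h, Filter.eventually_ge_atTop (c * N)] with m hm hmN
    have h3 : N ≤ m / c := (Nat.le_div_iff_mul_le hc).2 (by rw [Nat.mul_comm]; exact hmN)
    have h4 := hN (m / c) h3 (m % c) (Finset.mem_range.2 (Nat.mod_lt _ hc))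
    rw [Nat.div_add_mod] at h4
    have h5 : y (m / c) < 2 ^ g m :=
      lt_of_lt_of_le (hy1 (m / c)) (Nat.pow_le_pow_right (by norm_num) hm)
    rw [Nat.mod_eq_of_lt h5]
    exact h4

/-! ### The oracle attached to a function -/

/-- the graph of `a`, as a set of numbers -/
def gr (a : ℕ → ℕ) : Set ℕ := {n | a (Nat.unpair n).1 = (Nat.unpair n).2}

theorem a_comp (a : ℕ → ℕ) : ComputableIn {orc (gr a)} a := by
  classical
  have h0 : ComputableIn {orc (gr a)} fun n : ℕ => if n ∈ gr a then 1 else 0 := by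
    have : RecursiveIn {orc (gr a)} (orc (gr a)) := RecursiveIn.oracle _ rfl
    exact this
  have h1 : ComputableIn {orc (gr a)} fun n : ℕ => 1 - (if n ∈ gr a then 1 else 0) :=
    csub (cconst 1) h0
  have h2 : Nat.RecursiveIn {orc (gr a)}
      (fun n : ℕ => (Part.some (1 - (if n ∈ gr a then 1 else 0)) : Part ℕ)) :=
    RecursiveIn.iff_nat.1 h1
  have h3 := Nat.RecursiveIn.rfind h2
  refine RecursiveIn.iff_nat.2 (h3.of_eq fun k => ?_)
  refine Part.eq_some_iff.2 (Nat.mem_rfind.2 ⟨?_, ?_⟩)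
  · simp [gr]
  · intro m hm
    have : ¬ a k = m := by omega
    simp [gr, this]

section
variable [Par]

/-! ### The block containing an argument -/

/-- the index of the block containing `i` -/
noncomputable def kk (i : ℕ) : ℕ := nsum (i + 1) fun k => ind (decide (bb (k + 1) ≤ i))

theorem kk_eq {i k : ℕ} (h1 : bb k ≤ i) (h2 : i < bb (k + 1)) : kk i = k := by
  unfold kk
  rw [nsum_ind]
  have h3 : (Finset.range (i + 1)).filter (fun l => decide (bb (l + 1) ≤ i) = true)
      = Finset.range k := by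
    ext l
    simp only [Finset.mem_filter, Finset.mem_range, decide_eq_true_eq]
    constructor
    · rintro ⟨-, h⟩
      by_contra hc
      have : bb (k + 1) ≤ bb (l + 1) := bb_strictMono.monotone (by omega)
      omega
    · intro h
      have h4 : bb (l + 1) ≤ bb k := bb_strictMono.monotone (by omega)
      have h5 : l + 1 ≤ bb (l + 1) := bb_strictMono.id_le (l + 1)
      exact ⟨by omega, by omega⟩
  rw [h3, Finset.card_range]

theorem ckk {O : Set (ℕ →. ℕ)} {f : ℕ → ℕ} (hf : ComputableIn O f) :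
    ComputableIn O fun a => kk (f a) := by
  unfold kk
  exact nsum_comp (cadd hf (cconst 1)) (cind (cle (cbb (cadd ci_snd (cconst 1)))
    (ci_comp hf ci_fst)))

theorem exists_block {i k₀ : ℕ} (h : bb k₀ ≤ i) : ∃ k, k₀ ≤ k ∧ bb k ≤ i ∧ i < bb (k + 1) := by
  classical
  have hex : ∃ k, i < bb (k + 1) := ⟨i, lt_of_lt_of_le (Nat.lt_succ_self i)
    (bb_strictMono.id_le (i + 1))⟩
  refine ⟨Nat.find hex, ?_, ?_, Nat.find_spec hex⟩
  · by_contra hc
    push Not at hc
    have h1 : bb (Nat.find hex + 1) ≤ bb k₀ := bb_strictMono.monotone hc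
    have h2 := Nat.find_spec hex
    omega
  · rcases Nat.eq_zero_or_pos (Nat.find hex) with h0 | h0
    · rw [h0]
      exact (bb_strictMono.monotone (Nat.zero_le k₀)).trans h
    · have h1 := Nat.find_min hex (m := Nat.find hex - 1) (by omega)
      have h2 : Nat.find hex - 1 + 1 = Nat.find hex := by omega
      rw [h2] at h1
      omega

/-! ### Conclusion -/

/-- approximations of the oracle -/
def Dor (σ : List ℕ) (n : ℕ) : Option ℕ :=
  bif decide ((Nat.unpair n).1 < σ.length) then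
    some (ind (decide (σ.getD (Nat.unpair n).1 0 = (Nat.unpair n).2))) else none

theorem Dor_comp : Computable₂ Dor := by
  have h1 : ComputableIn ∅ fun p : List ℕ × ℕ => Dor p.1 p.2 := by
    unfold Dor
    refine ccond (clt (cunl ci_snd) (clen ci_fst)) ?_ (cconst none)
    exact ci_compC (f := fun n : ℕ => some n) Computable.option_some
      (cind (ceqN (cgetD 0 ci_fst (cunl ci_snd)) (cunr ci_snd)))
  exact computable_of_ci h1

theorem strict : ∃ A : Set ℕ, A ∈ BNeq (fun n => 2 ^ Par.f n) ∧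
    A ∉ BNeq (fun n => 2 ^ Par.g n) := by
  classical
  obtain ⟨a, ha1, ha2⟩ := exists_generic
  refine ⟨gr a, ⟨fun i => a (kk i) % 2 ^ Par.f i, ?_, ?_, ?_⟩, ?_⟩
  · exact cmod (ci_comp (a_comp a) (ckk ComputableIn.id)) (cpw 2 (cfF ComputableIn.id))
  · intro n
    exact Nat.mod_lt _ (by positivity)
  · intro x hx
    obtain ⟨k₀, hk₀⟩ := ha1 x hx
    filter_upwards [Filter.eventually_ge_atTop (bb k₀)] with i hi hxi
    obtain ⟨k, h1, h2, h3⟩ := exists_block hi
    rw [kk_eq h2 h3] at hxi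
    exact hk₀ k h1 ⟨i, h2, h3, hxi⟩
  · rintro ⟨Y, hY, hY1, hY2⟩
    -- the use principle
    have hY' : Nat.RecursiveIn {fun n => Part.some (if n ∈ gr a then 1 else 0)}
        (fun n => Part.some (Y n)) := RecursiveIn.iff_nat.1 hY
    obtain ⟨F, hF, -, hF2⟩ := use_principle Dor Dor_comp (by
      intro σ τ n v h1 h2
      unfold Dor at h2 ⊢
      by_cases h3 : (Nat.unpair n).1 < σ.length
      · have h4 : (Nat.unpair n).1 < τ.length := lt_of_lt_of_le h3 h1.length_le
        rw [List.getD_eq_getElem _ _ h3] at h2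
        rw [List.getD_eq_getElem _ _ h4, ← h1.getElem h3]
        simpa [h3, h4] using h2
      · simp [h3] at h2) a (fun n => if n ∈ gr a then 1 else 0) (by
      intro n
      refine ⟨(Nat.unpair n).1 + 1, ?_⟩
      unfold Dor
      have h4 : (Nat.unpair n).1 < (seg a ((Nat.unpair n).1 + 1)).length := by
        rw [length_seg]; omega
      rw [List.getD_eq_getElem _ _ h4]
      have h5 : (seg a ((Nat.unpair n).1 + 1))[(Nat.unpair n).1] = a (Nat.unpair n).1 := by
        simp [seg]
      rw [h5]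
      by_cases h6 : a (Nat.unpair n).1 = (Nat.unpair n).2
      · simp [length_seg, gr, h6, ind]
      · simp [length_seg, gr, h6, ind]) _ hY'
    obtain ⟨c, hc⟩ := exists_code.1 hF
    have hcF : ∀ (τ : List ℕ) (m v : ℕ), v ∈ c.eval (Encodable.encode (τ, m)) ↔ v ∈ F τ m := by
      intro τ m v
      rw [hc]
      simp
    have hEv : ∀ m v n, Ev c m v (seg a n) → v = Y m := by
      rintro m v n ⟨τ', h1, h2⟩
      have h3 : τ' = seg a τ'.length := by
        have h4 := List.prefix_iff_eq_take.1 h1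
        rw [take_seg a n _ (by have := h1.length_le; rwa [length_seg] at this)] at h4
        exact h4
      rw [hcF, h3] at h2
      have := (hF2 m v).2 ⟨_, h2⟩
      exact Part.mem_some_iff.1 this
    rcases ha2 c with ⟨m, hm⟩ | ⟨x, hx, hxh⟩
    · obtain ⟨n, hn⟩ := (hF2 m (Y m)).1 (Part.mem_some _)
      exact hm n ⟨Y m, hY1 m, seg a n, List.prefix_refl _, (hcF _ _ _).2 hn⟩
    · obtain ⟨M, hM⟩ := Filter.eventually_atTop.1 (hY2 x hx)
      obtain ⟨m, hm, n, hn⟩ := hxh M
      exact hM m hm (hEv m _ n hn)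

end

/-- The difficult non-inclusion, for strictly increasing `f`. -/
theorem not_incl {f g : ℕ → ℕ} (hf : Computable f) (hg : Computable g) (hfm : StrictMono f)
    (hgm : Monotone g) (h : ∀ c, ∃ n, c * (g (c * n) + 1) ≤ f n) :
    ¬ BNeq (fun n => 2 ^ f n) ⊆ BNeq (fun n => 2 ^ g n) := by
  intro hcon
  let _ : Par := ⟨f, g, hfm, hgm, hf.computableIn, hg.computableIn, h⟩
  obtain ⟨A, h1, h2⟩ := strict
  exact h2 (hcon h1)

/-- Shifting the argument. -/
theorem shift {f : ℕ → ℕ} (hf : Computable f) (n₀ : ℕ) :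
    BNeq (fun n => 2 ^ f (n + n₀)) ⊆ BNeq (fun n => 2 ^ f n) := by
  rintro A ⟨y, hy, hy1, hy2⟩
  refine ⟨fun m => y (m - n₀) % 2 ^ f m, ?_, ?_, ?_⟩
  · exact cmod (ci_comp (f := y) (g := fun m => m - n₀) hy (csub ComputableIn.id (cconst n₀)))
      (cpw 2 hf.computableIn)
  · intro n
    exact Nat.mod_lt _ (by positivity)
  · intro x hx
    have h1 : ∀ᶠ n in Filter.atTop, x (n + n₀) ≠ y n := by
      refine hy2 (fun n => x (n + n₀)) ?_
      refine computable_of_ci (ci_comp (f := x) (g := fun n => n + n₀) hx.computableIn ?_)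
      exact cadd ComputableIn.id (cconst n₀)
    obtain ⟨N, hN⟩ := Filter.eventually_atTop.1 h1
    filter_upwards [Filter.eventually_ge_atTop (N + n₀)] with m hm
    have h3 := hN (m - n₀) (by omega)
    have h4 : m - n₀ + n₀ = m := by omega
    rw [h4] at h3
    have h5 : y (m - n₀) < 2 ^ f m := by
      have h6 : y (m - n₀) < 2 ^ f (m - n₀ + n₀) := hy1 (m - n₀)
      rwa [h4] at h6
    rw [Nat.mod_eq_of_lt h5]
    exact h3

theorem not_incl' {f g : ℕ → ℕ} (hf : Computable f) (hg : Computable g)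
    (hfm : ∀ᶠ n in Filter.atTop, f n < f (n + 1)) (hgm : Monotone g)
    (h : ∀ c, ∃ᶠ n in Filter.atTop, c * (g (c * n) + 1) ≤ f n) :
    ¬ BNeq (fun n => 2 ^ f n) ⊆ BNeq (fun n => 2 ^ g n) := by
  obtain ⟨n₀, hn₀⟩ := Filter.eventually_atTop.1 hfm
  intro hcon
  have hf' : Computable fun n => f (n + n₀) :=
    computable_of_ci (ci_comp (f := f) (g := fun n => n + n₀) hf.computableIn
      (cadd ComputableIn.id (cconst n₀)))
  refine not_incl hf' hg ?_ hgm ?_ ((shift hf n₀).trans hcon)
  · refine strictMono_nat_of_lt_succ fun n => ?_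
    have := hn₀ (n + n₀) (by omega)
    have h2 : n + 1 + n₀ = n + n₀ + 1 := by omega
    rw [h2]
    exact this
  · intro c
    obtain ⟨n, hn, hn'⟩ := (Filter.frequently_atTop.1 (h c)) n₀
    refine ⟨n - n₀, ?_⟩
    have h2 : n - n₀ + n₀ = n := by omega
    rw [h2]
    refine le_trans ?_ hn'
    have h3 : g (c * (n - n₀)) ≤ g (c * n) := hgm (Nat.mul_le_mul_left _ (Nat.sub_le _ _))
    exact Nat.mul_le_mul_left _ (by omega)

theorem iter {g : ℕ → ℕ} (hgm : Monotone g) {d N : ℕ} (hd : ∀ n ≥ N, 2 * g n < g (d * n)) (j : ℕ) :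
    ∀ n ≥ N, 2 ^ j * (g n + 1) ≤ g (d ^ j * n) + 1 := by
  have hd0 : 0 < d := by
    rcases Nat.eq_zero_or_pos d with h | h
    · exfalso
      have h1 := hd N le_rfl
      rw [h, Nat.zero_mul] at h1
      have h2 := hgm (Nat.zero_le N)
      omega
    · exact h
  induction j with
  | zero => intro n _; simp
  | succ j ih =>
    intro n hn
    have h1 := ih n hn
    have h2 : N ≤ d ^ j * n := hn.le.trans (Nat.le_mul_of_pos_left _ (by positivity))
    have h3 := hd _ h2
    have h4 : d ^ (j + 1) * n = d * (d ^ j * n) := by rw [pow_succ]; ring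
    rw [h4, pow_succ]
    calc 2 ^ j * 2 * (g n + 1) = 2 * (2 ^ j * (g n + 1)) := by ring
      _ ≤ 2 * (g (d ^ j * n) + 1) := Nat.mul_le_mul_left _ h1
      _ ≤ g (d * (d ^ j * n)) + 1 := by omega

/-- The exact comparison. -/
theorem comparison {f g : ℕ → ℕ} (hf : Computable f) (hg : Computable g)
    (hfm : ∀ᶠ n in Filter.atTop, f n < f (n + 1)) (hgm : Monotone g)
    (hd : ∃ d, ∀ᶠ n in Filter.atTop, 2 * g n < g (d * n)) :
    BNeq (fun n => 2 ^ f n) ⊆ BNeq (fun n => 2 ^ g n) ↔
      ∃ c, ∀ᶠ n in Filter.atTop, f n ≤ g (c * n) := by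
  constructor
  · intro h
    by_contra hcon
    push Not at hcon
    refine not_incl' hf hg hfm hgm ?_ h
    obtain ⟨d, hd⟩ := hd
    obtain ⟨N, hN⟩ := Filter.eventually_atTop.1 hd
    intro c
    rcases Nat.eq_zero_or_pos c with hc | hc
    · subst hc
      exact (Filter.Eventually.of_forall fun n => by simp).frequently
    have h1 := hcon (d ^ c * c)
    refine (h1.and_eventually (Filter.eventually_ge_atTop N)).mono ?_
    rintro n ⟨h2, h3⟩
    have h4 : N ≤ c * n := h3.trans (Nat.le_mul_of_pos_left _ hc)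
    have h5 := iter hgm hN c (c * n) h4
    have h6 : c ≤ 2 ^ c := Nat.lt_two_pow_self.le
    have h7 : d ^ c * (c * n) = d ^ c * c * n := by ring
    rw [h7] at h5
    calc c * (g (c * n) + 1) ≤ 2 ^ c * (g (c * n) + 1) := Nat.mul_le_mul_right _ h6
      _ ≤ g (d ^ c * c * n) + 1 := h5
      _ ≤ f n := h2
  · rintro ⟨c, hc⟩
    refine incl hg (Nat.succ_pos c) ?_
    obtain ⟨N, hN⟩ := Filter.eventually_atTop.1 hc
    filter_upwards [Filter.eventually_ge_atTop ((c + 1) * N)] with m hm
    have h3 : N ≤ m / (c + 1) :=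
      (Nat.le_div_iff_mul_le (Nat.succ_pos c)).2 (by rw [Nat.mul_comm]; exact hm)
    refine (hN _ h3).trans (hgm ?_)
    calc c * (m / (c + 1)) ≤ (c + 1) * (m / (c + 1)) := Nat.mul_le_mul_right _ (Nat.le_succ c)
      _ ≤ m := Nat.mul_div_le _ _

theorem pow_comp : Computable fun n : ℕ => 2 ^ n := computable_of_ci (cpw 2 ComputableIn.id)

theorem fac_comp : Computable fun n : ℕ => n.factorial := computable_of_ci (cfct ComputableIn.id)

theorem pow_mono : Monotone fun n : ℕ => 2 ^ n := fun _ _ h => Nat.pow_le_pow_right (by norm_num) h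

theorem pow_doubling : ∃ d, ∀ᶠ n in Filter.atTop, 2 * 2 ^ n < 2 ^ (d * n) := by
  refine ⟨2, ?_⟩
  filter_upwards [Filter.eventually_ge_atTop 2] with n hn
  calc 2 * 2 ^ n = 2 ^ (n + 1) := by rw [pow_succ]; ring
    _ < 2 ^ (2 * n) := Nat.pow_lt_pow_right (by norm_num) (by omega)

theorem pow_le_factorial {n : ℕ} (hn : 4 ≤ n) : 2 ^ n ≤ n.factorial := by
  induction n, hn using Nat.le_induction with
  | base => decide
  | succ n hn ih =>
    rw [pow_succ, Nat.factorial_succ]
    nlinarith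

theorem factorial_big (c : ℕ) : ¬ ∀ᶠ n in Filter.atTop, n.factorial ≤ 2 ^ (c * n) := by
  intro h
  have h1 := FloorSemiring.tendsto_pow_div_factorial_atTop ((2 : ℝ) ^ c)
  have h2 : ∀ᶠ n : ℕ in Filter.atTop, ((2 : ℝ) ^ c) ^ n / (n.factorial : ℝ) < 1 :=
    h1.eventually (gt_mem_nhds one_pos)
  obtain ⟨n, h3, h4⟩ := (h.and h2).exists
  have h5 : (0 : ℝ) < n.factorial := by exact_mod_cast Nat.factorial_pos n
  rw [div_lt_one h5, ← pow_mul] at h4
  have h6 : ((2 ^ (c * n) : ℕ) : ℝ) < (n.factorial : ℝ) := by push_cast; exact h4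
  have h7 : 2 ^ (c * n) < n.factorial := by exact_mod_cast h6
  omega

/-- **Answer to Q1 (positive), with the exact comparison of all classes `B(≠*, 2^f)`.**
(1) exact criterion for `B(≠*, 2^f) ⊆ B(≠*, 2^g)`; (2) non-inclusion without the growth condition
on `g`; (3) all `f` which define the class `B(≠*, 2^(2^n))`; (4) `B(≠*, 2^(2^n))` is a proper
subclass of `B(≠*, 2^(n!))`. -/
theorem result :
    (∀ f g : ℕ → ℕ, Computable f → Computable g →
      (∀ᶠ n in Filter.atTop, f n < f (n + 1)) → Monotone g →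
      (∃ d, ∀ᶠ n in Filter.atTop, 2 * g n < g (d * n)) →
      (BNeq (fun n => 2 ^ f n) ⊆ BNeq (fun n => 2 ^ g n) ↔
        ∃ c, ∀ᶠ n in Filter.atTop, f n ≤ g (c * n))) ∧
    (∀ f g : ℕ → ℕ, Computable f → Computable g →
      (∀ᶠ n in Filter.atTop, f n < f (n + 1)) → Monotone g →
      (∀ c, ∃ᶠ n in Filter.atTop, c * (g (c * n) + 1) ≤ f n) →
      ¬ BNeq (fun n => 2 ^ f n) ⊆ BNeq (fun n => 2 ^ g n)) ∧
    (∀ f : ℕ → ℕ, Computable f → (∀ᶠ n in Filter.atTop, f n < f (n + 1)) →
      (∀ᶠ n in Filter.atTop, 2 ^ n ≤ f n) →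
      (BNeq (fun n => 2 ^ f n) = BNeq (fun n => 2 ^ (2 ^ n)) ↔
        ∃ c, ∀ᶠ n in Filter.atTop, f n ≤ 2 ^ (c * n))) ∧
    BNeq (fun n => 2 ^ (2 ^ n)) ⊂ BNeq (fun n => 2 ^ n.factorial) := by
  have key : ∀ f : ℕ → ℕ, Computable f → (∀ᶠ n in Filter.atTop, f n < f (n + 1)) →
      (BNeq (fun n => 2 ^ f n) ⊆ BNeq (fun n => 2 ^ (2 ^ n)) ↔
        ∃ c, ∀ᶠ n in Filter.atTop, f n ≤ 2 ^ (c * n)) := fun f hf hfm =>
    comparison hf pow_comp hfm pow_mono pow_doubling
  refine ⟨fun f g hf hg hfm hgm hd => comparison hf hg hfm hgm hd,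
    fun f g hf hg hfm hgm h => not_incl' hf hg hfm hgm h, ?_, ?_, ?_⟩
  · intro f hf hfm hfl
    constructor
    · intro h
      exact (key f hf hfm).1 h.subset
    · intro h
      refine Set.Subset.antisymm ((key f hf hfm).2 h) (incl hf one_pos ?_)
      filter_upwards [hfl] with m hm
      rwa [Nat.div_one]
  · refine incl fac_comp one_pos ?_
    filter_upwards [Filter.eventually_ge_atTop 4] with m hm
    rw [Nat.div_one]
    exact pow_le_factorial hm
  · intro h
    obtain ⟨c, hc⟩ := (key _ fac_comp (by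
      filter_upwards [Filter.eventually_ge_atTop 1] with n hn
      rw [Nat.factorial_succ]
      have := Nat.factorial_pos n
      nlinarith)).1 h
    exact factorial_big c hc

end Pool.Agent.Results.MP_69a5e7_lc.ExactComparison
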